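import Mathlib
import Pool.Agent.TH350.SC.Defs
import Pool.Agent.TH350.SC.Cls

/-!
# Schneider's conjecture over `ℚ`: good twists in every residue class modulo `d`

`GoodClass p m`: for every `r ≥ 2`, `r ≡ 1 - 2m (mod p - 1)`, the `p`-adic zeta value
`ζ_p(r) = 1/(r-1) · lim_N p^{-N} ∑_{0 < a < p^N, p ∤ a} a^{1-r}` exists and is a `p`-adic unit.
With `n = 1 - r`, an even negative integer congruent to `2m` modulo `p - 1`, this implies
`L_p(ℚ, ω^n, 1 - n) ≠ 0`, which is Schneider's conjecture for `(ℚ, p, n)`.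
-/

set_option autoImplicit false

namespace Pool.Agent.Results.MP_549b67_nt.TwistsInClasses

open Pool.Agent.TH350.SC

open Classical in
/-- Let `d ≥ 1` and let `p > d^φ(2d)` be prime.  For every `c` and `K ≤ (p - 3) / 2` the number `s` of
the `m`, `1 ≤ m ≤ K`, `m ≡ c (mod d)`, such that `ζ_p(r)` is a `p`-adic unit for all `r ≥ 2` with
`r ≡ 1 - 2m (mod p - 1)` satisfies `K < 4^(d-1) (s + 2)²`. -/
theorem result (p d : ℕ) (hp : p.Prime) (hd : 1 ≤ d) (hpd : d ^ Nat.totient (2 * d) < p)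
    (c : ℤ) (K : ℕ) (hK : 2 * K + 3 ≤ p) :
    K < 4 ^ (d - 1) * ({m ∈ Finset.Icc 1 K | ((m : ℕ) : ℤ) ≡ c [ZMOD d] ∧
      GoodClass p m}.card + 2) ^ 2 :=
  classes p d hp hd hpd c K hK

end Pool.Agent.Results.MP_549b67_nt.TwistsInClasses
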